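import Pool.Agent.PQP.StmtsE
import Pool.Agent.Helper54_FLX.All

/-! Squad PQP, row RED (helper22): the reduction. -/

set_option autoImplicit false

open scoped InnerProductSpace Topology ContDiff Manifold
open MeasureTheory Filter Set

noncomputable section

namespace Pool.Agent.PQP.H22

open Pool.Agent.Helper42_Paneitz Pool.Agent.Helper82_Vir Pool.Agent.FLX Pool.Agent.PQP
open Pool.Agent.FLX.H40 (finish slice_cont)
open Pool.Agent.FLX.H54 (tr moiB)

theorem red (hF : SbfStmt) (hN : SbnStmt) : RedStmt := by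
  have ker : FLX.KerStmt := FLX.H83.ker FLX.H54.pow_all
  have rea : FLX.ReaStmt := FLX.H32.rea FLX.H54.pow_all ker
  have sym : FLX.SymStmt := FLX.H55.sym ker rea
  have xis : FLX.XisStmt := FLX.H55.xis sym (FLX.H82.rep ker)
  obtain ⟨τ₁, CF, hτ₁, hCF, hF⟩ := hF
  obtain ⟨CN, hCN, hN⟩ := hN
  refine ⟨min τ₁ (1 / (4 * CF)), CN * (CF + CF ^ 2) + CF, lt_min hτ₁ (by positivity),
    by positivity, ?_⟩
  intro S q τ hS1 hqc hτ0 hττ hSB
  have ht1 : τ ≤ τ₁ := hττ.trans (min_le_left _ _)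
  have ht2 : CF * τ ≤ 1 / 4 := by
    have h1 : τ ≤ 1 / (4 * CF) := hττ.trans (min_le_right _ _)
    rw [le_div_iff₀ (by positivity)] at h1
    linarith
  have hmobc : ContinuousOn (fun z : E5 × S4 => mob z.1 z.2) (S ×ˢ univ) :=
    FLX.H54.mos_all.1.mono fun z hz => hS1 z.1 hz.1
  have hmobb : ∀ b ∈ S, Continuous (mob b) := fun b hb => slice_cont mob hmobc hb
  set qb : E5 → S4 → ℝ := fun b x => q (mob b x) with hqb
  have hqbc : ContinuousOn (fun z : E5 × S4 => qb z.1 z.2) (S ×ˢ univ) :=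
    hqc.comp_continuousOn hmobc
  have hqb1 : ∀ b ∈ S, Continuous (qb b) := fun b hb => hqc.comp (hmobb b hb)
  obtain ⟨H, hHc, hHb, hHR, hHeq⟩ := hF S qb τ hqbc hτ0 ht1 hSB
  have hR0 : 0 ≤ CF * τ := by positivity
  refine ⟨fun b => ∫ y : S4, Nn (qb b) (H b) y • (y : E5) ∂sig, ?_, ?_, ?_⟩
  · refine continuousOn_integral_of_compact_support
      (f := fun (b : E5) (y : S4) => Nn (qb b) (H b) y • (y : E5)) isCompact_univ ?_ ?_
    · show ContinuousOn (fun z : E5 × S4 => Nn (qb z.1) (H z.1) z.2 • (z.2 : E5)) (S ×ˢ univ)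
      have h1 : Continuous fun z : E5 × S4 => (z.2 : E5) :=
        continuous_subtype_val.comp continuous_snd
      have h2 : ContinuousOn (fun z : E5 × S4 => Real.exp (4 * H z.1 z.2)) (S ×ˢ univ) :=
        Real.continuous_exp.comp_continuousOn (continuousOn_const.mul hHc)
      have h3 : ContinuousOn (fun z : E5 × S4 =>
        (6 + qb z.1 z.2) * Real.exp (4 * H z.1 z.2) - 6 - 24 * H z.1 z.2) (S ×ˢ univ) :=
        (((continuousOn_const.add hqbc).mul h2).sub continuousOn_const).sub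
        (continuousOn_const.mul hHc)
      exact ContinuousOn.smul h3 h1.continuousOn
    · intro b x _ hx
      exact absurd (mem_univ x) hx
  · intro b hb
    have h1 := (hN (qb b) (H b) (H b) (CF * τ) 0 τ (hqb1 b hb) (hHb b hb) (hHb b hb) hR0 ht2
      (hHR b hb) (hHR b hb) (fun x => by simp) (hSB b hb)).2.2
    refine h1.trans ?_
    have h2 : CN * (CF * τ * τ + (CF * τ) ^ 2) = CN * (CF + CF ^ 2) * τ ^ 2 := by ring
    rw [h2]
    have h3 : 0 ≤ CF * τ ^ 2 := by positivity
    linarith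
  · intro b hb hB
    have hb1 := hS1 b hb
    have hIE := finish ker rea xis sym (hqb1 b hb) (hHb b hb) (hHeq b hb) hB
    refine ⟨tr b (H b), moiB FLX.H54.moa_all FLX.H54.mos_all FLX.H54.mom_all ker b
      (fun x => 6 + q x) (H b) hb1 (continuous_const.add hqc) hIE, fun y => ?_⟩
    obtain ⟨-, -, -, a4, -, -⟩ := FLX.H54.moa_all b hb1
    have h1 : tr b (H b) (mob b y) + Real.log (Jac b y) / 4 = H b y := by
      unfold tr
      rw [a4 y]
      ring
    rw [h1]
    refine (hHR b hb y).trans ?_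
    have h2 : 0 ≤ CN * (CF + CF ^ 2) * τ := by positivity
    linarith

end Pool.Agent.PQP.H22
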